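import Pool.Agent.Helper60.BFT.Goals
import Pool.Agent.Helper60.BFT.AvBasic

/-! Packet BLK of MP_74f661_nt. -/

set_option autoImplicit false

open Finset Filter Topology
open Pool.Agent.Helper90.Twin (Ps Gz XX)

namespace Pool.Agent.Helper18.BFT

open Pool.Agent.Helper60.BFT

/-! ### Sums and running sums along a progression -/

/-- number of `t` with `i0 + 6 t < L` -/
def cnt (i0 L : ℕ) : ℕ := (L + 5 - i0) / 6

theorem cnt_succ_of_eq {i0 L : ℕ} (h0 : i0 < 6) (h : L % 6 = i0) :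
    cnt i0 (L + 1) = cnt i0 L + 1 ∧ i0 + 6 * cnt i0 L = L := by
  unfold cnt; omega

theorem cnt_succ_of_ne {i0 L : ℕ} (h0 : i0 < 6) (h : L % 6 ≠ i0) :
    cnt i0 (L + 1) = cnt i0 L := by
  unfold cnt; omega

theorem sum_prog {i0 : ℕ} (h0 : i0 < 6) (g : ℕ → ℝ) (hg : ∀ i, i % 6 ≠ i0 → g i = 0) (L : ℕ) :
    ∑ i ∈ range L, g i = ∑ t ∈ range (cnt i0 L), g (i0 + 6 * t) := by
  induction L with
  | zero =>
    have : cnt i0 0 = 0 := by unfold cnt; omega
    rw [this]; simp
  | succ L ih =>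
    rw [Finset.sum_range_succ, ih]
    by_cases h : L % 6 = i0
    · obtain ⟨h1, h2⟩ := cnt_succ_of_eq h0 h
      rw [h1, Finset.sum_range_succ, h2]
    · rw [cnt_succ_of_ne h0 h, hg L h, add_zero]

theorem run_prog {i0 : ℕ} (h0 : i0 < 6) (s Y : ℕ → ℝ) (hY : ∀ i, i % 6 ≠ i0 → Y i = 0) (L : ℕ) :
    run s Y L = run (fun t => s (i0 + 6 * t)) (fun t => Y (i0 + 6 * t)) (cnt i0 L) := by
  induction L with
  | zero =>
    have : cnt i0 0 = 0 := by unfold cnt; omega
    rw [this]; rfl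
  | succ L ih =>
    by_cases h : L % 6 = i0
    · obtain ⟨h1, h2⟩ := cnt_succ_of_eq h0 h
      rw [h1]
      simp only [run]
      rw [ih, h2]
    · rw [cnt_succ_of_ne h0 h, ← ih]
      simp only [run]
      rw [hY L h]
      simp

theorem run_scale (c : ℝ) (hc : c * c = 1) (s Y : ℕ → ℝ) (N : ℕ) :
    (run (fun t => c * s t) Y N).1 = (run s Y N).1 ∧
    (run (fun t => c * s t) Y N).2 = c * (run s Y N).2 := by
  induction N with
  | zero => simp [run]
  | succ N ih =>
    simp only [run]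
    rw [ih.1, ih.2]
    constructor
    · linear_combination (Y N * s N * (run s Y N).2) * hc
    · ring

theorem run_congr (s s' Y Y' : ℕ → ℝ) (hs : ∀ t, s t = s' t) (hY : ∀ t, Y t = Y' t) (N : ℕ) :
    run s Y N = run s' Y' N := by
  have h1 : s = s' := funext hs
  have h2 : Y = Y' := funext hY
  rw [h1, h2]

theorem chi_add (n t : ℕ) (hn : n % 2 = 1) : chi (n + 6 * t) = chi n * (-1) ^ t := by
  unfold chi
  rcases Nat.even_or_odd t with ⟨u, hu⟩ | ⟨u, hu⟩
  · have h1 : (n + 6 * t) % 4 = n % 4 := by omega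
    rw [h1, hu, ← two_mul, pow_mul]
    norm_num
  · rw [hu, pow_succ, pow_mul]
    by_cases h : n % 4 = 1
    · have h1 : (n + 6 * (2 * u + 1)) % 4 ≠ 1 := by omega
      rw [if_neg h1, if_pos h]
      norm_num
    · have h1 : (n + 6 * (2 * u + 1)) % 4 = 1 := by omega
      rw [if_pos h1, if_neg h]
      norm_num

theorem chi_sq (n : ℕ) : chi n * chi n = 1 := by
  unfold chi; split_ifs <;> norm_num

theorem chi_abs (n : ℕ) : |chi n| = 1 := by
  unfold chi; split_ifs <;> norm_num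

/-! ### Dependence on residues only -/

theorem bad_congr {A A' : ℕ → ℕ} {p t : ℕ} (h : A p ≡ A' p [MOD p]) : bad A p t ↔ bad A' p t := by
  unfold bad
  have h1 : 6 * t + A p ≡ 6 * t + A' p [MOD p] := h.add_left _
  have h2 : 6 * t + A p + 2 ≡ 6 * t + A' p + 2 [MOD p] := h1.add_right _
  rw [(Nat.ModEq.dvd_iff h1 (dvd_refl p)), (Nat.ModEq.dvd_iff h2 (dvd_refl p))]

theorem XA_congr {A A' : ℕ → ℕ} (Z : ℕ) (h : ∀ p, A p ≡ A' p [MOD p]) (t : ℕ) :
    XA Z A t = XA Z A' t := by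
  unfold XA XX
  refine Finset.prod_congr rfl fun p _ => ?_
  unfold yA
  by_cases hb : bad A p t
  · have hb' : bad A' p t := (bad_congr (h p)).1 hb
    rw [if_pos hb, if_pos hb']
  · have hb' : ¬ bad A' p t := fun h' => hb ((bad_congr (h p)).2 h')
    rw [if_neg hb, if_neg hb']

theorem Av_modEq (L : List ℕ) (F : (ℕ → ℕ) → ℝ)
    (hF : ∀ A A' : ℕ → ℕ, (∀ p, A p ≡ A' p [MOD p]) → F A = F A') :
    ∀ A A' : ℕ → ℕ, (∀ p, A p ≡ A' p [MOD p]) → Av L F A = Av L F A' := by
  induction L with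
  | nil => exact hF
  | cons q L ih =>
    intro A A' h
    rw [Av_cons, Av_cons]
    congr 1
    refine Finset.sum_congr rfl fun c _ => ih _ _ fun p => ?_
    by_cases hp : p = q
    · subst hp; rw [Function.update_self, Function.update_self]
    · rw [Function.update_of_ne hp, Function.update_of_ne hp]; exact h p

theorem sum_reflect (q ns : ℕ) (hq : 0 < q) (G : ℕ → ℝ) (hG : ∀ c c', c ≡ c' [MOD q] → G c = G c') :
    ∑ c ∈ range q, G (ns + (q - 1) * c) = ∑ c ∈ range q, G c := by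
  have hinj : Set.InjOn (fun c => (ns + (q - 1) * c) % q) (range q : Set ℕ) := by
    intro c hc c' hc' h
    have h1 : ns + (q - 1) * c ≡ ns + (q - 1) * c' [MOD q] := h
    have h2 : (q - 1) * c ≡ (q - 1) * c' [MOD q] := Nat.ModEq.add_left_cancel' ns h1
    have hcop : Nat.gcd q (q - 1) = 1 := by
      have := (Nat.coprime_self_sub_right (m := 1) (n := q) hq).mpr (Nat.coprime_one_right q)
      exact this
    have h3 : c ≡ c' [MOD q] := Nat.ModEq.cancel_left_of_coprime hcop h2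
    have hc1 : c < q := by simpa using hc
    have hc2 : c' < q := by simpa using hc'
    exact Nat.ModEq.eq_of_lt_of_lt h3 hc1 hc2
  have hmap : Set.MapsTo (fun c => (ns + (q - 1) * c) % q) (range q : Set ℕ) (range q : Set ℕ) := by
    intro c _
    simp only [coe_range, Set.mem_Iio]
    exact Nat.mod_lt _ hq
  refine Finset.sum_nbij (fun c => (ns + (q - 1) * c) % q) (fun c hc => hmap hc) hinj
    (Finset.surjOn_of_injOn_of_card_le _ hmap hinj le_rfl) (fun c _ => ?_)
  exact hG _ _ (Nat.mod_modEq _ _).symm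

theorem Av_trans (L : List ℕ) (hL : ∀ q ∈ L, 0 < q) (F : (ℕ → ℕ) → ℝ)
    (hF : ∀ A A' : ℕ → ℕ, (∀ p, A p ≡ A' p [MOD p]) → F A = F A') (S : ℕ → Prop) [DecidablePred S]
    (hLS : ∀ q ∈ L, S q) (ns : ℕ) (d : ℕ → ℕ) :
    ∀ a : ℕ → ℕ, Av L (fun b => F (fun p => ns + (p - 1) * (if S p then b p else d p))) a =
      Av L F (fun p => ns + (p - 1) * (if S p then a p else d p)) := by
  induction L with
  | nil => intro a; rfl
  | cons q L ih =>
    intro a
    rw [Av_cons, Av_cons]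
    congr 1
    have hq : 0 < q := hL q (by simp)
    have hS : S q := hLS q (by simp)
    have ih' := ih (fun p hp => hL p (List.mem_cons_of_mem _ hp))
      (fun p hp => hLS p (List.mem_cons_of_mem _ hp))
    have hM := Av_modEq L F hF
    set A : ℕ → ℕ := fun p => ns + (p - 1) * (if S p then a p else d p) with hA
    have h1 : ∀ c, (fun p => ns + (p - 1) * (if S p then (Function.update a q c) p else d p)) =
        Function.update A q (ns + (q - 1) * c) := by
      intro c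
      funext p
      by_cases hp : p = q
      · subst hp; rw [Function.update_self, Function.update_self, if_pos hS]
      · rw [Function.update_of_ne hp, Function.update_of_ne hp]
    rw [Finset.sum_congr rfl (fun c _ => (ih' (Function.update a q c)).trans (by rw [h1 c]))]
    apply sum_reflect q ns hq (fun c => Av L F (Function.update A q c))
    intro c c' hcc
    apply hM
    intro p
    by_cases hp : p = q
    · subst hp; rw [Function.update_self, Function.update_self]; exact hcc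
    · rw [Function.update_of_ne hp, Function.update_of_ne hp]

/-! ### The dictionary -/

/-- translated assignment -/
noncomputable def tr (r Z ns : ℕ) (d b : ℕ → ℕ) (p : ℕ) : ℕ :=
  ns + (p - 1) * (by classical exact if p ∈ lg r Z then b p else d p)

theorem dvd_tr_iff {p x c : ℕ} (hp : 0 < p) : p ∣ x + (p - 1) * c ↔ x ≡ c [MOD p] := by
  have h1 : x + (p - 1) * c + c = x + p * c := by
    obtain ⟨m, rfl⟩ : ∃ m, p = m + 1 := ⟨p - 1, by omega⟩
    simp only [Nat.add_sub_cancel]; ring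
  constructor
  · intro h
    have h2 : x + (p - 1) * c + c ≡ 0 + c [MOD p] :=
      Nat.ModEq.add_right c ((Nat.modEq_zero_iff_dvd).mpr h)
    rw [h1, zero_add] at h2
    have h3 : x + p * c ≡ x + 0 [MOD p] :=
      Nat.ModEq.add_left x ((Nat.modEq_zero_iff_dvd).mpr (dvd_mul_right p c))
    rw [add_zero] at h3
    exact h3.symm.trans h2
  · intro h
    apply (Nat.modEq_zero_iff_dvd).mp
    have h3 : x + p * c ≡ x + 0 [MOD p] :=
      Nat.ModEq.add_left x ((Nat.modEq_zero_iff_dvd).mpr (dvd_mul_right p c))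
    rw [← h1, add_zero] at h3
    have h4 : x + (p - 1) * c + c ≡ 0 + c [MOD p] := by
      rw [zero_add]; exact h3.trans h
    exact Nat.ModEq.add_right_cancel' c h4

theorem XA_eq_ite (Z : ℕ) (A : ℕ → ℕ) (t : ℕ) :
    XA Z A t = (by classical exact if ∀ p ∈ Ps Z, ¬ bad A p t then (1 : ℝ) else 0) := by
  classical
  unfold XA XX
  by_cases h : ∀ p ∈ Ps Z, ¬ bad A p t
  · rw [if_pos h]
    refine Finset.prod_eq_one fun p hp => ?_
    unfold yA
    rw [if_neg (h p hp), sub_zero]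
  · rw [if_neg h]
    push Not at h
    obtain ⟨p, hp, hb⟩ := h
    refine Finset.prod_eq_zero hp ?_
    unfold yA
    rw [if_pos hb, sub_self]

theorem YF_eq {K : ℕ} {Z : ℕ → ℕ} {β : ℕ → ℕ → (ℕ → ℕ) → ℕ} {r ns : ℕ} {a b : ℕ → ℕ}
    (hβ : Adapted β) (hr : 3 ≤ r) (hb : ∀ q, q ∉ lg r (Z (r ^ K)) → b q = a q)
    (hodd : ns % 2 = 1) (h3 : ns % 3 = (β r 3 a + 2) % 3) (t : ℕ) :
    YF K Z β r b (ns + 6 * t) = XA (Z (r ^ K)) (tr r (Z (r ^ K)) ns (fun p => β r p a) b) t := by
  classical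
  rw [XA_eq_ite]
  unfold YF
  have hβ' : ∀ p ≤ r, β r p b = β r p a := by
    intro p hp
    apply hβ r p hp
    intro q hq
    apply hb
    intro h
    have := (mem_lg.1 h).2.2.2
    omega
  have hcls : ∀ p ∈ Ps (Z (r ^ K)), (if p ≤ r then β r p b else b p) =
      (if p ∈ lg r (Z (r ^ K)) then b p else β r p a) := by
    intro p hp
    by_cases hpr : p ≤ r
    · have : p ∉ lg r (Z (r ^ K)) := by
        intro h
        have := (mem_lg.1 h).2.2.2
        omega
      rw [if_pos hpr, if_neg this, hβ' p hpr]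
    · have : p ∈ lg r (Z (r ^ K)) := by
        obtain ⟨h1, h2, h3⟩ := Helper90.Twin.mem_Ps.1 hp
        exact mem_lg.2 ⟨h1, h2, h3, by omega⟩
      rw [if_neg hpr, if_pos this]
  have hbad : ∀ p ∈ Ps (Z (r ^ K)), bad (tr r (Z (r ^ K)) ns (fun p => β r p a) b) p t ↔
      (ns + 6 * t ≡ (if p ≤ r then β r p b else b p) [MOD p] ∨
        ns + 6 * t + 2 ≡ (if p ≤ r then β r p b else b p) [MOD p]) := by
    intro p hp
    have hp0 : 0 < p := by
      have := (Helper90.Twin.mem_Ps.1 hp).1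
      omega
    rw [hcls p hp]
    unfold bad tr
    have e1 : 6 * t + (ns + (p - 1) * (if p ∈ lg r (Z (r ^ K)) then b p else β r p a)) =
        (ns + 6 * t) + (p - 1) * (if p ∈ lg r (Z (r ^ K)) then b p else β r p a) := by ring
    have e2 : 6 * t + (ns + (p - 1) * (if p ∈ lg r (Z (r ^ K)) then b p else β r p a)) + 2 =
        (ns + 6 * t + 2) + (p - 1) * (if p ∈ lg r (Z (r ^ K)) then b p else β r p a) := by ring
    rw [e2, e1, dvd_tr_iff hp0, dvd_tr_iff hp0]
  refine if_congr ?_ rfl rfl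
  constructor
  · rintro ⟨_, h⟩ p hp hb'
    obtain ⟨h1, h2, h3'⟩ := Helper90.Twin.mem_Ps.1 hp
    obtain ⟨g1, g2⟩ := h p h3' (by omega) h2
    rcases (hbad p hp).1 hb' with h' | h'
    · exact g1 h'
    · exact g2 h'
  · intro h
    refine ⟨by omega, fun p hp h3p hpZ => ?_⟩
    by_cases hp3 : p = 3
    · subst hp3
      rw [if_pos hr, hβ' 3 hr]
      constructor
      · intro hh
        have : (ns + 6 * t) % 3 = (β r 3 a) % 3 := hh
        omega
      · intro hh
        have : (ns + 6 * t + 2) % 3 = (β r 3 a) % 3 := hh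
        omega
    · have h5 : 5 ≤ p := by
        rcases Nat.lt_or_ge p 5 with hlt | hge
        · have : p = 4 := by omega
          subst this
          exact absurd hp (by norm_num)
        · exact hge
      have hmem : p ∈ Ps (Z (r ^ K)) := Helper90.Twin.mem_Ps.2 ⟨h5, hpZ, hp⟩
      have := h p hmem
      rw [hbad p hmem] at this
      push Not at this
      exact this

theorem YF_zero {K : ℕ} {Z : ℕ → ℕ} {β : ℕ → ℕ → (ℕ → ℕ) → ℕ} {r : ℕ} {a b : ℕ → ℕ}
    (hβ : Adapted β) (hr : 3 ≤ r) (hrZ : r ≤ Z (r ^ K))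
    (hb : ∀ q, q ∉ lg r (Z (r ^ K)) → b q = a q) (n : ℕ)
    (hn : ¬ (n % 2 = 1 ∧ n % 3 = (β r 3 a + 2) % 3)) :
    YF K Z β r b n = 0 := by
  unfold YF
  rw [if_neg]
  rintro ⟨h1, h2⟩
  apply hn
  refine ⟨h1, ?_⟩
  obtain ⟨g1, g2⟩ := h2 3 Nat.prime_three le_rfl (by omega)
  have hβ' : β r 3 b = β r 3 a := by
    apply hβ r 3 hr
    intro q hq
    apply hb
    intro h
    have := (mem_lg.1 h).2.2.2
    omega
  rw [if_pos hr, hβ'] at g1 g2
  have g1' : ¬ (n % 3 = (β r 3 a) % 3) := g1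
  have g2' : ¬ ((n + 2) % 3 = (β r 3 a) % 3) := g2
  generalize β r 3 a = c at g1' g2' ⊢
  have hn3 : n % 3 = 0 ∨ n % 3 = 1 ∨ n % 3 = 2 := by omega
  have hc3 : c % 3 = 0 ∨ c % 3 = 1 ∨ c % 3 = 2 := by omega
  rcases hn3 with h | h | h <;> rcases hc3 with h' | h' | h' <;> omega

theorem len_ge (K r : ℕ) (hK : 1 ≤ K) : r ^ (K - 1) ≤ len K r := by
  unfold len
  have h1 : (r + 1) ^ K = (r + 1) ^ (K - 1) * (r + 1) := by
    rw [← pow_succ]; congr 1; omega
  have h2 : r ^ K = r ^ (K - 1) * r := by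
    rw [← pow_succ]; congr 1; omega
  have h3 : r ^ (K - 1) ≤ (r + 1) ^ (K - 1) := Nat.pow_le_pow_left (Nat.le_succ r) _
  have h4 : r ^ (K - 1) * (r + 1) ≤ (r + 1) ^ (K - 1) * (r + 1) := Nat.mul_le_mul_right _ h3
  rw [h1, h2]
  have h5 : r ^ (K - 1) * (r + 1) = r ^ (K - 1) * r + r ^ (K - 1) := by ring
  omega

theorem blk : COREG → BLKG := by
  intro hC ε hε k
  set e : ℝ := min ε 1 with he
  have he0 : 0 < e := lt_min hε one_pos
  have he1 : e ≤ 1 := min_le_right _ _
  have heε : e ≤ ε := min_le_left _ _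
  obtain ⟨K0, hK0⟩ := hC (e / 4) (by positivity)
  refine ⟨max K0 (k + 5), fun K hK Z hZ => ?_⟩
  have hK1 : K0 ≤ K := le_trans (le_max_left _ _) hK
  have hK2 : k + 5 ≤ K := le_trans (le_max_right _ _) hK
  have hlow : ∀ᶠ r : ℕ in atTop, r ^ K ≤ Z (r ^ K) ^ k :=
    (Filter.tendsto_pow_atTop (by omega : K ≠ 0)).eventually hZ.low
  filter_upwards [hK0 K hK1, hlow, eventually_ge_atTop 6,
    eventually_ge_atTop (Nat.ceil (24 / e))] with r hr1 hr2 hr6 hre β hβ a
  have hr3 : 3 ≤ r := by omega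
  have hrZ : r ≤ Z (r ^ K) := by
    by_contra hlt
    push Not at hlt
    have h1 : Z (r ^ K) ^ k ≤ r ^ k := Nat.pow_le_pow_left hlt.le _
    have h2 : r ^ k < r ^ K := Nat.pow_lt_pow_right (by omega) (by omega)
    omega
  have hZr : Z (r ^ K) ≤ r ^ K := hZ.le _
  -- the progression
  obtain ⟨i0, hi0, hprog⟩ : ∃ i0 < 6, ∀ i, i % 6 = i0 ↔
      ((r ^ K + i) % 2 = 1 ∧ (r ^ K + i) % 3 = (β r 3 a + 2) % 3) := by
    generalize r ^ K = m
    generalize β r 3 a = c
    refine ⟨((3 + 4 * (c + 2)) % 6 + 6 - m % 6) % 6, Nat.mod_lt _ (by norm_num), fun i => ?_⟩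
    omega
  set ns := r ^ K + i0 with hns
  have hns' := (hprog i0).1 (Nat.mod_eq_of_lt hi0)
  set N := cnt i0 (len K r) with hN
  set Zr := Z (r ^ K) with hZrdef
  have hlen1 : r ^ (K - 1) ≤ len K r := len_ge K r (by omega)
  have hpow : r ^ (K - 1) = r * r ^ (K - 2) := by
    rw [← pow_succ']; congr 1; omega
  have hN1 : len K r ≤ 6 * N + i0 ∧ 6 * N ≤ len K r + 5 := by
    rw [hN]; unfold cnt; omega
  have hNr : r ^ (K - 2) ≤ N := by
    have h1 : 6 * r ^ (K - 2) ≤ r * r ^ (K - 2) := Nat.mul_le_mul_right _ hr6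
    have h2 : 1 ≤ r ^ (K - 2) := Nat.one_le_pow _ _ (by omega)
    by_contra hlt
    push Not at hlt
    have : 6 * N + 6 ≤ 6 * r ^ (K - 2) := by omega
    omega
  -- dictionary
  have key : ∀ b : ℕ → ℕ, (∀ q, q ∉ lg r Zr → b q = a q) → ∀ t,
      YF K Z β r b (r ^ K + (i0 + 6 * t)) = XA Zr (tr r Zr ns (fun p => β r p a) b) t := by
    intro b hb t
    rw [← add_assoc]
    exact YF_eq hβ hr3 hb hns'.1 hns'.2 t
  have key0 : ∀ b : ℕ → ℕ, (∀ q, q ∉ lg r Zr → b q = a q) → ∀ i, i % 6 ≠ i0 →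
      YF K Z β r b (r ^ K + i) = 0 := by
    intro b hb i hi
    apply YF_zero hβ hr3 hrZ hb
    intro h
    exact hi ((hprog i).2 h)
  have hT0 : EE K Z (T0 K Z β r) r a =
      Av (lg r Zr) (fun A => B0 (XA Zr A) N) (tr r Zr ns (fun p => β r p a) a) := by
    unfold EE
    rw [Av_congr (lg r Zr) (T0 K Z β r)
      (fun b => B0 (XA Zr (tr r Zr ns (fun p => β r p a) b)) N) a]
    · classical
      exact Av_trans (lg r Zr) lg_pos (fun A => B0 (XA Zr A) N)
        (fun A A' h => by unfold B0; exact Finset.sum_congr rfl fun t _ => XA_congr Zr h t)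
        (fun p => p ∈ lg r Zr) (fun q hq => hq) ns (fun p => β r p a) a
    · intro b hb
      unfold T0 B0
      rw [sum_prog hi0 _ (key0 b hb)]
      exact Finset.sum_congr rfl fun t _ => key b hb t
  have hT1 : EE K Z (T1 K Z β r) r a = chi ns *
      Av (lg r Zr) (fun A => B1 (XA Zr A) N) (tr r Zr ns (fun p => β r p a) a) := by
    unfold EE
    rw [Av_congr (lg r Zr) (T1 K Z β r)
      (fun b => chi ns * B1 (XA Zr (tr r Zr ns (fun p => β r p a) b)) N) a]
    · rw [Av_mul_left]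
      congr 1
      classical
      exact Av_trans (lg r Zr) lg_pos (fun A => B1 (XA Zr A) N)
        (fun A A' h => by
          unfold B1; exact Finset.sum_congr rfl fun t _ => by rw [XA_congr Zr h t])
        (fun p => p ∈ lg r Zr) (fun q hq => hq) ns (fun p => β r p a) a
    · intro b hb
      unfold T1 B1
      rw [sum_prog hi0 _ (fun i hi => by rw [key0 b hb i hi, mul_zero]), Finset.mul_sum]
      refine Finset.sum_congr rfl fun t _ => ?_
      rw [key b hb t, ← add_assoc, chi_add _ _ hns'.1]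
      ring
  have hT2 : EE K Z (T2 K Z β r) r a =
      Av (lg r Zr) (fun A => B2 (XA Zr A) N) (tr r Zr ns (fun p => β r p a) a) := by
    unfold EE
    rw [Av_congr (lg r Zr) (T2 K Z β r)
      (fun b => B2 (XA Zr (tr r Zr ns (fun p => β r p a) b)) N) a]
    · classical
      exact Av_trans (lg r Zr) lg_pos (fun A => B2 (XA Zr A) N)
        (fun A A' h => by
          unfold B2
          rw [run_congr _ _ (XA Zr A) (XA Zr A') (fun _ => rfl) (fun t => XA_congr Zr h t)])
        (fun p => p ∈ lg r Zr) (fun q hq => hq) ns (fun p => β r p a) a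
    · intro b hb
      unfold T2 B2
      rw [run_prog hi0 _ _ (key0 b hb)]
      rw [run_congr _ (fun t => chi ns * (-1) ^ t) _
        (XA Zr (tr r Zr ns (fun p => β r p a) b))
        (fun t => by rw [← add_assoc, chi_add _ _ hns'.1]) (fun t => key b hb t)]
      exact (run_scale (chi ns) (chi_sq ns) _ _ _).1
  obtain ⟨c0, c1, c2⟩ := hr1 Zr hrZ hZr N hNr (tr r Zr ns (fun p => β r p a) a)
  -- numerics
  have hG : 0 < Gz Zr := Helper90.Twin.Gz_pos Zr
  have hmT : mT K Z r = len K r * Gz Zr / 6 := rfl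
  have hlenr : (24 / e : ℝ) ≤ len K r := by
    have h1 : (24 / e : ℝ) ≤ r := (Nat.le_ceil _).trans (by exact_mod_cast hre)
    have h2 : r ≤ len K r := by
      have h2 : 1 ≤ r ^ (K - 2) := Nat.one_le_pow _ _ (by omega)
      have h3 : r * 1 ≤ r * r ^ (K - 2) := Nat.mul_le_mul_left _ h2
      omega
    exact h1.trans (by exact_mod_cast h2)
  have hNlen : |(N : ℝ) - len K r / 6| ≤ 1 := by
    have h1 : (len K r : ℝ) ≤ 6 * N + i0 := by exact_mod_cast hN1.1
    have h2 : (6 * N : ℝ) ≤ len K r + 5 := by exact_mod_cast hN1.2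
    have h3 : (i0 : ℝ) ≤ 6 := by exact_mod_cast hi0.le
    rw [abs_le]; constructor <;> linarith
  have hmpos : 0 ≤ mT K Z r := by rw [hmT]; positivity
  have h24 : Gz Zr ≤ e / 4 * mT K Z r := by
    rw [hmT]
    have h1 : 24 ≤ e * len K r := by
      have := mul_le_mul_of_nonneg_left hlenr he0.le
      rwa [mul_div_cancel₀ _ he0.ne'] at this
    have : 24 * Gz Zr ≤ e * len K r * Gz Zr := mul_le_mul_of_nonneg_right h1 hG.le
    linarith
  have hdiff : |(N : ℝ) * Gz Zr - mT K Z r| ≤ e / 4 * mT K Z r := by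
    have h1 : (N : ℝ) * Gz Zr - mT K Z r = (N - len K r / 6) * Gz Zr := by rw [hmT]; ring
    rw [h1, abs_mul, abs_of_pos hG]
    calc |(N : ℝ) - len K r / 6| * Gz Zr ≤ 1 * Gz Zr := mul_le_mul_of_nonneg_right hNlen hG.le
      _ ≤ _ := by rw [one_mul]; exact h24
  have hNG : (N : ℝ) * Gz Zr ≤ (1 + e / 4) * mT K Z r := by
    have := (abs_le.1 hdiff).2
    linarith
  have hb1 : e / 4 * (N * Gz Zr) ≤ e / 2 * mT K Z r := by
    have h1 : e / 4 * (N * Gz Zr) ≤ e / 4 * ((1 + e / 4) * mT K Z r) :=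
      mul_le_mul_of_nonneg_left hNG (by positivity)
    have h2 : e / 4 * ((1 + e / 4) * mT K Z r) ≤ e / 2 * mT K Z r := by
      have : e / 4 * (1 + e / 4) ≤ e / 2 := by nlinarith
      calc e / 4 * ((1 + e / 4) * mT K Z r) = (e / 4 * (1 + e / 4)) * mT K Z r := by ring
        _ ≤ _ := mul_le_mul_of_nonneg_right this hmpos
    exact h1.trans h2
  have hfin : e / 2 * mT K Z r ≤ ε * mT K Z r :=
    mul_le_mul_of_nonneg_right (by linarith) hmpos
  refine ⟨?_, ?_, ?_⟩
  · rw [hT0]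
    have h1 : |Av (lg r Zr) (fun A => B0 (XA Zr A) N) (tr r Zr ns (fun p => β r p a) a) - mT K Z r|
        ≤ |Av (lg r Zr) (fun A => B0 (XA Zr A) N) (tr r Zr ns (fun p => β r p a) a) - N * Gz Zr| +
          |(N : ℝ) * Gz Zr - mT K Z r| := abs_sub_le _ _ _
    have h2 : e / 4 * mT K Z r + e / 2 * mT K Z r ≤ ε * mT K Z r := by
      have : (e / 4 + e / 2) * mT K Z r ≤ ε * mT K Z r :=
        mul_le_mul_of_nonneg_right (by linarith) hmpos
      linarith
    linarith
  · rw [hT1, abs_mul, chi_abs, one_mul]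
    exact (c1.trans hb1).trans hfin
  · rw [hT2]
    exact (c2.trans hb1).trans hfin

end Pool.Agent.Helper18.BFT
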